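import Pool.Agent.Lib.MP_f1fc44_al.Defs
import Pool.Agent.Lib.MP_f1fc44_al.Q

/-!
# Weighted Leavitt path algebras are semiprimitive

For every field `K` and every weighted graph `(E,w)` (row-finite, with nonempty vertex set and
positive integer weights) the weighted Leavitt path algebra `L_K(E,w)` has zero Jacobson radical.

The definitions (`WGraph`, `WGraph.Lpa`, `Semiprimitive`) are in
`Pool/Agent/Lib/MP_f1fc44_al/Defs.lean`.

Sketch of the proof. The algebra `L_K(E,w)` is realised as a full set of corners of the algebra of
a hypergraph in which every hyperedge is an invertible matrix of letters without zero entries;
that algebra has a basis of reduced words for a rewriting system in which one step suffices.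
A nonzero element of a corner is multiplied on both sides to a non-quasi-regular element: either
all leading words end in a letter which is never involved in a rewriting (degree argument), or
all words are `forward` words and one argues in a free category algebra.
-/

namespace Pool.Agent.Results.MP_f1fc44_al.Semiprim

open Pool.Agent.Lib.MP_f1fc44_al

universe u v w

/-- For every field `K` and every weighted graph `(E,w)`, the weighted Leavitt path algebra
`L_K(E,w)` is semiprimitive: its only two-sided ideal consisting of quasi-regular elements is
zero. -/
theorem result (G : WGraph.{u, v}) (K : Type w) [Field K] : Semiprimitive (G.Lpa K) :=
  WGraph.semiprimitive_Lpa G K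

end Pool.Agent.Results.MP_f1fc44_al.Semiprim
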